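import Pool.Agent.U481.GL.Stm
import Pool.Agent.U876.HW.EXT

set_option autoImplicit false

/-!
Project GL (helper481), package APC: `A_p` weights are `A_p` weights in the sense of `HW.ApC`.
-/

namespace Pool.Agent.U785.GL

open Pool.Agent.U481.HW Pool.Agent.U481.GL

theorem main : S_apc := fun _ hp _ hU => Pool.Agent.U876.HW.apC_of_ap hp hU

end Pool.Agent.U785.GL
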